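import Pool.Agent.Helper48.ET.LocalSteps
import Pool.Agent.Helper3.WA.Defs

set_option autoImplicit false

namespace Pool.Agent.Helper67.WA

open Finset
open Pool.Agent.Helper48.ET
open Pool.Agent.Helper48.ET.K
open Pool.Agent.Helper3.WT (rp GG P0)
open Pool.Agent.Helper3.WA

variable {p : ℕ} [Fact p.Prime]

/-- the renaming of the variables -/
def ren (g ρ R0 : ℕ) : Option (ℕ × ℕ) → Option (ℕ × ℕ × ℕ)
  | none => none
  | some (r, k) => some (g, r + ρ, R0 + k)

theorem ren_inj (g ρ R0 : ℕ) : Function.Injective (ren g ρ R0) := by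
  intro a b h
  rcases a with _ | ⟨r, k⟩ <;> rcases b with _ | ⟨r', k'⟩
  · rfl
  · simp [ren] at h
  · simp [ren] at h
  · simp only [ren, Option.some.injEq, Prod.mk.injEq, true_and] at h
    obtain ⟨h1, h⟩ := h
    have : k = k' := by omega
    have h2 : r = r' := by omega
    rw [this, h2]

/-- WA-1 (the local step for general families) -/
theorem ls_gen {C : ℕ} (hC : 8 ≤ C) (P : (ℕ → ZMod p) → (ℕ → ZMod p) → Prop)
    (L : Par p → (ℕ → ZMod p) → (ℕ → ZMod p) → Prop) (a : Om p)
    (h g ρ R0 T'' T' T R q' : ℕ) (h1 : T'' ≤ T') (h2 : T' ≤ T) (h3 : T' ≤ T'' + R)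
    (hT : T ≤ 2 * C ^ 4) (hq' : q' ≤ C ^ h * (R0 + T')) (M W M' W' Λ' : ℕ → ℕ → Om p)
    (hMW : IsInv T M W)
    (ha : ∀ y z, P y z → ∀ j < T'', cell p C z h (R0 + j) =
      a * Qf T'' M' W' (fun k => cell p C y h (R0 + k)) j +
        ∑ u ∈ range (R0 + T''), Λ' j u * cell p C y h u)
    (hb : ∀ θ : Par p, ∃ Λ : ℕ → ℕ → Om p, ∀ y z, L θ y z → ∀ j < T,
      cell p C z h (R0 + j) = θ.val none * Qf T M W (fun k => cell p C y h (R0 + k)) j +
        ∑ u ∈ range (R0 + T), Λ j u * cell p C y h u)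
    (hc : ∀ y z, P y z → ∀ k, T' ≤ k → k < T → cell p C y h (R0 + k) = 0 ∧
      cell p C z h (R0 + k) = 0)
    (hd : ∀ (θ : Par p) (t w : ℕ → ZMod p), ∀ x ∈ SolG P (L θ) t w,
      ∀ y ∈ SolG P (L θ) t w, trunc (C ^ h * R0) y = trunc (C ^ h * R0) x → ∀ r < R,
      ∑ k ∈ range T', θ.val (some (g, r + ρ, R0 + k)) * cell p C y h (R0 + k) =
        ∑ k ∈ range T', θ.val (some (g, r + ρ, R0 + k)) * cell p C x h (R0 + k)) :
    ∃ Q : MvPolynomial (Option (ℕ × ℕ × ℕ)) (Om p), Q ≠ 0 ∧ Q.totalDegree ≤ Del C ∧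
      ∀ θ : Par p, MvPolynomial.eval θ.val Q ≠ 0 → ∀ t w : ℕ → ZMod p,
        (SolG P (L θ) t w).Finite →
        FB (SolG P (L θ) t w) (C ^ h * R0) q' (N0 C) := by
  classical
  have hC0 : 0 < C := by omega
  obtain ⟨Q, hP0, hPd, hP⟩ := ls_core T'' T' T R h1 h2 h3 M W hMW M' W' a
  refine ⟨MvPolynomial.rename (ren g ρ R0) Q, ?_, ?_, ?_⟩
  · intro h0
    exact hP0 (MvPolynomial.rename_injective _ (ren_inj g ρ R0) (by rw [h0, map_zero]))
  · exact (MvPolynomial.totalDegree_rename_le _ _).trans (hPd.trans (pow_mono_aux hT).2)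
  intro θ hθ t w hfin x hx
  rw [MvPolynomial.eval_rename] at hθ
  have hfin2 : {y | y ∈ SolG P (L θ) t w ∧
      trunc (C ^ h * R0) y = trunc (C ^ h * R0) x}.Finite := hfin.subset (fun y hy => hy.1)
  refine ⟨hfin2.image _, ?_⟩
  obtain ⟨Λ, hΛ⟩ := hb θ
  -- the cells
  let G : (ℕ → ZMod p) → (ℕ → Om p) := fun y u => if u < R0 + T' then cell p C y h u else 0
  have hmem : ∀ y ∈ hfin2.toFinset, y ∈ SolG P (L θ) t w ∧
      trunc (C ^ h * R0) y = trunc (C ^ h * R0) x := fun y hy => hfin2.mem_toFinset.mp hy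
  have hpre : ∀ y ∈ hfin2.toFinset, ∀ u < R0, cell p C y h u = cell p C x h u := by
    intro y hy u hu
    apply cell_congr hC0
    intro v _ hv
    have h5 := congrFun (hmem y hy).2 v
    have h6 : v < C ^ h * R0 := by
      calc v < (u + 1) * C ^ h := hv
        _ ≤ R0 * C ^ h := Nat.mul_le_mul_right _ hu
        _ = C ^ h * R0 := mul_comm _ _
    simpa [trunc, h6] using h5
  have hcard : (hfin2.toFinset.image (trunc q')).card ≤ (hfin2.toFinset.image G).card := by
    apply image_card_le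
    intro y hy y' hy' he
    funext v
    unfold trunc
    split_ifs with hv
    · have h5 : v / C ^ h < R0 + T' := by
        apply Nat.div_lt_of_lt_mul
        exact hv.trans_le hq'
      have h6 : cell p C y h (v / C ^ h) = cell p C y' h (v / C ^ h) := by
        have := congrFun he (v / C ^ h)
        simpa [G, h5] using this
      exact cell_inj hC0 h6 v (Nat.div_mul_le_self _ _) (by
        rw [mul_comm]; exact Nat.lt_mul_div_succ v (by positivity))
    · rfl
  have e1 : (trunc q' '' {y | y ∈ SolG P (L θ) t w ∧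
      trunc (C ^ h * R0) y = trunc (C ^ h * R0) x}).ncard =
      (hfin2.toFinset.image (trunc q')).card := by
    rw [← Set.ncard_coe_finset, coe_image, hfin2.coe_toFinset]
  rw [e1]
  refine hcard.trans (le_trans ?_ (pow_mono_aux hT).1)
  -- application of `ls_core`
  have hG : ∀ y, ∀ u < R0 + T', G y u = cell p C y h u := by
    intro y u hu
    simp [G, hu]
  have hG0 : ∀ y, ∀ k, T' ≤ k → G y (R0 + k) = 0 := by
    intro y k hk
    simp only [G]
    rw [if_neg (by omega)]
  -- for `u < R0 + T` the truncated cells are the cells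
  have hG1 : ∀ y z, P y z → ∀ u < R0 + T, G y u = cell p C y h u := by
    intro y z hyz u hu
    rcases lt_or_ge u (R0 + T') with h5 | h5
    · exact hG y u h5
    · obtain ⟨k, rfl⟩ := Nat.exists_eq_add_of_le (le_trans (Nat.le_add_right R0 T') h5)
      rw [hG0 y k (by omega), (hc y z hyz k (by omega) (by omega)).1]
  have hsub : ∀ y z, P y z → L θ (t - y) (w - z) → ∀ j < T,
      cell p C w h (R0 + j) = cell p C z h (R0 + j) +
        (θ.val none * Qf T M W (fun k => cell p C t h (R0 + k) - G y (R0 + k)) j +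
        ∑ u ∈ range (R0 + T), Λ j u * (cell p C t h u - G y u)) := by
    intro y z hyz hyz2 j hj
    have h5 := hΛ _ _ hyz2 j hj
    rw [cell_sub] at h5
    have h6 : Qf T M W (fun k => cell p C (t - y) h (R0 + k)) j =
        Qf T M W (fun k => cell p C t h (R0 + k) - G y (R0 + k)) j := by
      apply Qf_congr
      intro k hk
      rw [cell_sub, hG1 y z hyz _ (by omega)]
    have h7 : ∑ u ∈ range (R0 + T), Λ j u * cell p C (t - y) h u =
        ∑ u ∈ range (R0 + T), Λ j u * (cell p C t h u - G y u) := by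
      apply sum_congr rfl
      intro u hu
      rw [cell_sub, hG1 y z hyz _ (mem_range.mp hu)]
    rw [h6, h7] at h5
    linear_combination h5
  refine hP (θ.val ∘ ren g ρ R0) hθ R0 Λ' Λ (fun u => cell p C t h u)
    (fun j => cell p C w h (R0 + j)) (fun u => cell p C x h u)
    (fun r => ∑ k ∈ range T', θ.val (some (g, r + ρ, R0 + k)) * cell p C x h (R0 + k))
    (hfin2.toFinset.image G) ?_ ?_ ?_ ?_ ?_
  · intro z1 hz1 u hu
    obtain ⟨y, hy, rfl⟩ := mem_image.mp hz1
    rw [hG y u (by omega)]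
    exact hpre y hy u hu
  · intro z1 hz1 k hk
    obtain ⟨y, hy, rfl⟩ := mem_image.mp hz1
    exact hG0 y k hk
  · intro z1 hz1 j hj
    obtain ⟨y, hy, rfl⟩ := mem_image.mp hz1
    obtain ⟨z, hyz, hyz2⟩ := (hmem y hy).1
    have h5 := hsub y z hyz hyz2 j (by omega)
    have h6 := ha y z hyz j hj
    have h7 : Qf T'' M' W' (fun k => cell p C y h (R0 + k)) j =
        Qf T'' M' W' (fun k => G y (R0 + k)) j := by
      apply Qf_congr
      intro k hk
      rw [hG y _ (by omega)]
    have h8 : ∑ u ∈ range (R0 + T''), Λ' j u * cell p C y h u =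
        ∑ u ∈ range (R0 + T''), Λ' j u * G y u := by
      apply sum_congr rfl
      intro u hu
      rw [hG y u (by have := mem_range.mp hu; omega)]
    rw [h7, h8] at h6
    rw [h6] at h5
    exact h5.symm
  · intro z1 hz1 j hj hjT
    obtain ⟨y, hy, rfl⟩ := mem_image.mp hz1
    obtain ⟨z, hyz, hyz2⟩ := (hmem y hy).1
    have h5 := hsub y z hyz hyz2 j hjT
    rw [(hc y z hyz j hj hjT).2, zero_add] at h5
    exact h5.symm
  · intro z1 hz1 r hr
    obtain ⟨y, hy, rfl⟩ := mem_image.mp hz1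
    have h5 := hd θ t w x hx y (hmem y hy).1 (hmem y hy).2 r hr
    rw [← h5]
    apply sum_congr rfl
    intro k hk
    rw [hG y _ (by have := mem_range.mp hk; omega)]
    rfl

end Pool.Agent.Helper67.WA
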